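import Pool.Graph.R_seed8.H893R5.MC.Final

/-!
# The membership problem is hard for the truth-table degree of the halting problem
-/

set_option autoImplicit false

namespace Pool.Agent.Results.MP_d0b6c3_lc.TruthTableHard

open Pool.Agent.H893R5.MC

/-- The membership problem: a circuit is a nonempty list of gates `(o, a, d)`; the gate at position
`i` computes `{a}` if `o = 0`, and for `o = 1, ..., 5` the union, intersection, complement,
elementwise sum or product of the sets computed by the gates at the positions `a, d < i` (only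
`a` for the complement); the last gate is the output gate. `MC (C, b)`: the number `b` is in the
set computed by `C`. -/
def MC (p : List (ℕ × ℕ × ℕ) × ℕ) : Prop :=
  p.1 ≠ [] ∧ ∃ f : ℕ → Set ℕ,
    (∀ i o a d : ℕ, p.1[i]? = some (o, a, d) →
      (o = 0 ∧ f i = {a}) ∨
      (o = 1 ∧ a < i ∧ d < i ∧ f i = f a ∪ f d) ∨
      (o = 2 ∧ a < i ∧ d < i ∧ f i = f a ∩ f d) ∨
      (o = 3 ∧ a < i ∧ f i = (f a)ᶜ) ∨
      (o = 4 ∧ a < i ∧ d < i ∧ f i = {n : ℕ | ∃ x ∈ f a, ∃ y ∈ f d, n = x + y}) ∨
      (o = 5 ∧ a < i ∧ d < i ∧ f i = {n : ℕ | ∃ x ∈ f a, ∃ y ∈ f d, n = x * y})) ∧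
    p.2 ∈ f (p.1.length - 1)

/-- `Val S P`: the Boolean circuit `P` with queries to `S` has the value true. It is a nonempty list
of gates `(o, a, d)`; the gate at position `i` is the query whether `S a` holds if `o = 0`, the
conjunction of the gates at the positions `a, d < i` if `o = 1`, and the negation of the gate at
the position `a < i` if `o = 2`; the last gate is the output gate. -/
def Val (S : ℕ → Prop) (P : List (ℕ × ℕ × ℕ)) : Prop :=
  P ≠ [] ∧ ∃ v : ℕ → Prop,
    (∀ i o a d : ℕ, P[i]? = some (o, a, d) →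
      (o = 0 ∧ (v i ↔ S a)) ∨
      (o = 1 ∧ a < i ∧ d < i ∧ (v i ↔ (v a ∧ v d))) ∨
      (o = 2 ∧ a < i ∧ (v i ↔ ¬ v a))) ∧
    v (P.length - 1)

/-- `A` is truth-table reducible to `S`: a computable function gives for each `n` a Boolean
circuit with queries to `S` whose value says whether `A n` holds. -/
def TTReducible (A S : ℕ → Prop) : Prop :=
  ∃ P : ℕ → List (ℕ × ℕ × ℕ), Computable P ∧ ∀ n, A n ↔ Val S (P n)

/-- one gate of a Boolean circuit -/
def BG (S : ℕ → Prop) (v : ℕ → Prop) (i : ℕ) (g : ℕ × ℕ × ℕ) : Prop :=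
  (g.1 = 0 ∧ (v i ↔ S g.2.1)) ∨
  (g.1 = 1 ∧ g.2.1 < i ∧ g.2.2 < i ∧ (v i ↔ (v g.2.1 ∧ v g.2.2))) ∨
  (g.1 = 2 ∧ g.2.1 < i ∧ (v i ↔ ¬ v g.2.1))

/-! ### well-formed lists of gates -/

/-- the gate refers to earlier positions -/
def WFg (i : ℕ) (g : ℕ × ℕ × ℕ) : Prop :=
  g.1 = 0 ∨ (g.1 = 3 ∧ g.2.1 < i) ∨
    ((g.1 = 1 ∨ g.1 = 2 ∨ g.1 = 4 ∨ g.1 = 5) ∧ g.2.1 < i ∧ g.2.2 < i)

/-- all gates refer to earlier positions -/
def WF (off : ℕ) (L : List (ℕ × ℕ × ℕ)) : Prop := ∀ k g, L[k]? = some g → WFg (off + k) g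

theorem wfg_of_gate {f : ℕ → Set ℕ} {i : ℕ} {g : ℕ × ℕ × ℕ} (h : Gate f i g) : WFg i g := by
  unfold Gate at h
  unfold WFg
  rcases h with ⟨h0, -⟩ | ⟨h0, h1, h2, -⟩ | ⟨h0, h1, h2, -⟩ | ⟨h0, h1, -⟩ | ⟨h0, h1, h2, -⟩ |
    ⟨h0, h1, h2, -⟩
  · exact Or.inl h0
  · exact Or.inr (Or.inr ⟨Or.inl h0, h1, h2⟩)
  · exact Or.inr (Or.inr ⟨Or.inr (Or.inl h0), h1, h2⟩)
  · exact Or.inr (Or.inl ⟨h0, h1⟩)
  · exact Or.inr (Or.inr ⟨Or.inr (Or.inr (Or.inl h0)), h1, h2⟩)
  · exact Or.inr (Or.inr ⟨Or.inr (Or.inr (Or.inr h0)), h1, h2⟩)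

theorem gate_of_wfg (f0 : ℕ → Set ℕ) (i : ℕ) (g : ℕ × ℕ × ℕ) (h : WFg i g) :
    ∃ V : Set ℕ, Gate (Function.update f0 i V) i g := by
  unfold WFg at h
  unfold Gate
  rcases h with h0 | ⟨h0, h1⟩ | ⟨h0, h1, h2⟩
  · exact ⟨{g.2.1}, Or.inl ⟨h0, Function.update_self _ _ _⟩⟩
  · refine ⟨(f0 g.2.1)ᶜ, Or.inr (Or.inr (Or.inr (Or.inl ⟨h0, h1, ?_⟩)))⟩
    rw [Function.update_self, Function.update_of_ne (by omega)]
  · rcases h0 with h0 | h0 | h0 | h0
    · refine ⟨f0 g.2.1 ∪ f0 g.2.2, Or.inr (Or.inl ⟨h0, h1, h2, ?_⟩)⟩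
      rw [Function.update_self, Function.update_of_ne (by omega), Function.update_of_ne (by omega)]
    · refine ⟨f0 g.2.1 ∩ f0 g.2.2, Or.inr (Or.inr (Or.inl ⟨h0, h1, h2, ?_⟩))⟩
      rw [Function.update_self, Function.update_of_ne (by omega), Function.update_of_ne (by omega)]
    · refine ⟨sadd (f0 g.2.1) (f0 g.2.2), Or.inr (Or.inr (Or.inr (Or.inr (Or.inl
        ⟨h0, h1, h2, ?_⟩))))⟩
      rw [Function.update_self, Function.update_of_ne (by omega), Function.update_of_ne (by omega)]
    · refine ⟨smul (f0 g.2.1) (f0 g.2.2), Or.inr (Or.inr (Or.inr (Or.inr (Or.inr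
        ⟨h0, h1, h2, ?_⟩))))⟩
      rw [Function.update_self, Function.update_of_ne (by omega), Function.update_of_ne (by omega)]

theorem exists_sat (L : List (ℕ × ℕ × ℕ)) : ∀ (off : ℕ) (f0 : ℕ → Set ℕ), WF off L →
    ∃ f, (∀ j < off, f j = f0 j) ∧ Sat f off L := by
  induction L using List.reverseRecOn with
  | nil =>
    intro off f0 _
    exact ⟨f0, fun _ _ => rfl, fun k g hk => by simp at hk⟩
  | append_singleton L g ih =>
    intro off f0 h
    have h1 : WF off L := by
      intro k g' hk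
      refine h k g' ?_
      have hk' : k < L.length := by
        by_contra hc
        rw [List.getElem?_eq_none (by omega)] at hk
        exact absurd hk (by simp)
      rw [List.getElem?_append_left hk']
      exact hk
    have h2 : WFg (off + L.length) g := h L.length g (by simp)
    obtain ⟨f, hf1, hf2⟩ := ih off f0 h1
    obtain ⟨V, hV⟩ := gate_of_wfg f _ g h2
    refine ⟨Function.update f (off + L.length) V, ?_, ?_⟩
    · intro j hj
      rw [Function.update_of_ne (by omega), hf1 j hj]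
    · rw [sat_append, sat_single]
      refine ⟨hf2.congr (fun j hj => ?_), hV⟩
      rw [Function.update_of_ne (by omega)]

theorem wf_append {off : ℕ} {L L' : List (ℕ × ℕ × ℕ)} (h : WF off L)
    (h' : WF (off + L.length) L') : WF off (L ++ L') := by
  intro k g hk
  by_cases hc : k < L.length
  · rw [List.getElem?_append_left hc] at hk
    exact h k g hk
  · rw [List.getElem?_append_right (by omega)] at hk
    have := h' _ g hk
    have e : off + L.length + (k - L.length) = off + k := by omega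
    rwa [e] at this

theorem wf_single {off : ℕ} {g : ℕ × ℕ × ℕ} (h : WFg off g) : WF off [g] := by
  intro k g' hk
  cases k with
  | zero => simp at hk; subst hk; exact h
  | succ k => simp at hk

theorem wf_replicate (off n : ℕ) : WF off (List.replicate n (0, 0, 0)) := by
  intro k g hk
  rw [List.getElem?_replicate] at hk
  split_ifs at hk
  simp at hk
  subst hk
  exact Or.inl rfl

theorem wf_compile (m : ℕ) (t : T) (off : ℕ) : WF off (compile m t off) := by
  obtain ⟨f, -, hf⟩ := complete m t off (fun _ => ∅)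
  exact fun k g hk => wfg_of_gate (hf k g hk)

/-! ### the translation -/

section tr

variable (t : T) (N : ℕ)

/-- the block of a Boolean gate -/
def block (i : ℕ) (g : ℕ × ℕ × ℕ) : List (ℕ × ℕ × ℕ) :=
  if g.1 = 0 then
    compile (2 ^ (N * g.2.1)) t (i * (sz t + 3)) ++ (List.replicate 2 (0, 0, 0) ++
      [(1, i * (sz t + 3) + sz t - 1, i * (sz t + 3) + sz t - 1)])
  else if g.1 = 1 then
    List.replicate (sz t + 2) (0, 0, 0) ++
      [(2, (g.2.1 + 1) * (sz t + 3) - 1, (g.2.2 + 1) * (sz t + 3) - 1)]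
  else if g.1 = 2 then
    List.replicate (sz t + 1) (0, 0, 0) ++ ([(3, (g.2.1 + 1) * (sz t + 3) - 1, 0)] ++
      [(2, i * (sz t + 3) + sz t, i * (sz t + 3) + sz t + 1)])
  else List.replicate (sz t + 2) (0, 0, 0) ++ [(9, 0, 0)]

theorem length_block (i : ℕ) (g : ℕ × ℕ × ℕ) : (block t N i g).length = sz t + 3 := by
  unfold block
  split_ifs <;> simp [length_compile]

/-- the translation -/
def enc (P : List (ℕ × ℕ × ℕ)) : List (ℕ × ℕ × ℕ) :=
  (List.range P.length).flatMap (fun i => block t N i (P.getD i (0, 0, 0)))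

theorem enc_snoc (P : List (ℕ × ℕ × ℕ)) (g : ℕ × ℕ × ℕ) :
    enc t N (P ++ [g]) = enc t N P ++ block t N P.length g := by
  unfold enc
  rw [List.length_append, List.length_singleton, List.range_succ, List.flatMap_append,
    List.flatMap_cons, List.flatMap_nil, List.append_nil]
  congr 1
  · refine List.flatMap_congr ?_
    intro i hi
    rw [List.mem_range] at hi
    rw [List.getD_append _ _ _ _ hi]
  · rw [List.getD_append_right _ _ _ _ le_rfl]
    simp

theorem length_enc (P : List (ℕ × ℕ × ℕ)) : (enc t N P).length = P.length * (sz t + 3) := by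
  induction P using List.reverseRecOn with
  | nil => simp [enc]
  | append_singleton P g ih =>
    rw [enc_snoc, List.length_append, ih, length_block, List.length_append, List.length_singleton]
    ring

variable (S : ℕ → Prop) (ht : ∀ n, t.ev (2 ^ (N * n)) = {x | x = 0 ∧ S n})

include ht

theorem block_sound (f : ℕ → Set ℕ) (v : ℕ → Prop) (i : ℕ) (g : ℕ × ℕ × ℕ)
    (hf : ∀ j < i, f ((j + 1) * (sz t + 3) - 1) = {x | x = 0 ∧ v j})
    (hv : v i ↔ 0 ∈ f ((i + 1) * (sz t + 3) - 1))
    (h : Sat f (i * (sz t + 3)) (block t N i g)) :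
    BG S v i g ∧ f ((i + 1) * (sz t + 3) - 1) = {x | x = 0 ∧ v i} := by
  have hs := sz_pos t
  have e0 : (i + 1) * (sz t + 3) - 1 = i * (sz t + 3) + (sz t + 2) := by
    rw [Nat.succ_mul]; omega
  have hlt : ∀ a, (a + 1) * (sz t + 3) - 1 < i * (sz t + 3) + (sz t + 2) → a < i ∨ a = i := by
    intro a ha
    by_contra hc
    have h1 : i + 1 ≤ a := by omega
    have h2 : (i + 1) * (sz t + 3) ≤ a * (sz t + 3) := Nat.mul_le_mul_right _ h1
    rw [Nat.succ_mul] at ha h2
    omega
  have hlt' : ∀ a, (a + 1) * (sz t + 3) - 1 < i * (sz t + 3) + (sz t + 2) → a < i := by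
    intro a ha
    rcases hlt a ha with h1 | h1
    · exact h1
    · subst h1
      rw [e0] at ha
      omega
  -- it suffices to know the set
  have fin : ∀ Q : Prop, f ((i + 1) * (sz t + 3) - 1) = {x | x = 0 ∧ Q} →
      (v i ↔ Q) ∧ f ((i + 1) * (sz t + 3) - 1) = {x | x = 0 ∧ v i} := by
    intro Q hQ
    have h1 : v i ↔ Q := by
      rw [hv, hQ]
      exact ⟨fun h => h.2, fun h => ⟨rfl, h⟩⟩
    refine ⟨h1, ?_⟩
    rw [hQ]
    ext x
    exact ⟨fun h => ⟨h.1, h1.2 h.2⟩, fun h => ⟨h.1, h1.1 h.2⟩⟩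
  unfold block at h
  split_ifs at h with c0 c1 c2
  · rw [sat_append, sat_append, length_compile, List.length_replicate, sat_single] at h
    obtain ⟨h1, -, h3⟩ := h
    have h4 := sound _ f t _ h1
    have h5 := gate1 h3
    rw [Set.union_self, h4, ht] at h5
    have h6 : f ((i + 1) * (sz t + 3) - 1) = {x | x = 0 ∧ S g.2.1} := by
      rw [e0, ← h5]
      congr 1
    obtain ⟨h7, h8⟩ := fin _ h6
    exact ⟨Or.inl ⟨c0, h7⟩, h8⟩
  · rw [sat_append, List.length_replicate, sat_single] at h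
    have h3 := h.2
    have hw := wfg_of_gate h3
    have h4 : (g.2.1 + 1) * (sz t + 3) - 1 < i * (sz t + 3) + (sz t + 2) ∧
        (g.2.2 + 1) * (sz t + 3) - 1 < i * (sz t + 3) + (sz t + 2) := by
      unfold WFg at hw
      rcases hw with hw | hw | hw
      · simp at hw
      · simp at hw
      · exact hw.2
    have h5 := gate2 h3
    rw [hf _ (hlt' _ h4.1), hf _ (hlt' _ h4.2)] at h5
    have h6 : f ((i + 1) * (sz t + 3) - 1) = {x | x = 0 ∧ (v g.2.1 ∧ v g.2.2)} := by
      rw [e0, h5]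
      ext x
      constructor
      · rintro ⟨⟨h1, h2⟩, -, h3⟩
        exact ⟨h1, h2, h3⟩
      · rintro ⟨h1, h2, h3⟩
        exact ⟨⟨h1, h2⟩, h1, h3⟩
    obtain ⟨h7, h8⟩ := fin _ h6
    exact ⟨Or.inr (Or.inl ⟨c1, hlt' _ h4.1, hlt' _ h4.2, h7⟩), h8⟩
  · rw [sat_append, sat_append, List.length_replicate, sat_single, sat_single,
      List.length_singleton] at h
    obtain ⟨h1, h2, h3⟩ := h
    have h1' : f (i * (sz t + 3) + sz t) = {0} := by
      have := h1 (sz t) (0, 0, 0) (by rw [List.getElem?_replicate]; simp)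
      exact gate0 this
    have hw := wfg_of_gate h2
    have h4 : (g.2.1 + 1) * (sz t + 3) - 1 < i * (sz t + 3) + (sz t + 1) := by
      unfold WFg at hw
      rcases hw with hw | hw | hw
      · simp at hw
      · exact hw.2
      · simp at hw
    have h5 := gate3 h2
    have h6 := gate2 h3
    rw [hf _ (hlt' _ (by omega))] at h5
    have h7 : f ((i + 1) * (sz t + 3) - 1) = {x | x = 0 ∧ ¬ v g.2.1} := by
      rw [e0]
      have e1 : i * (sz t + 3) + (sz t + 1) + 1 = i * (sz t + 3) + (sz t + 2) := by omega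
      rw [e1] at h6
      rw [h6, h1', show i * (sz t + 3) + sz t + 1 = i * (sz t + 3) + (sz t + 1) by omega, h5]
      ext x
      constructor
      · rintro ⟨h1, h2⟩
        have h1' : x = 0 := h1
        subst h1'
        exact ⟨rfl, fun h => h2 ⟨rfl, h⟩⟩
      · rintro ⟨rfl, h2⟩
        exact ⟨rfl, fun h => h2 h.2⟩
    obtain ⟨h8, h9⟩ := fin _ h7
    exact ⟨Or.inr (Or.inr ⟨c2, hlt' _ (by omega), h8⟩), h9⟩
  · rw [sat_append, List.length_replicate, sat_single] at h
    have hw := wfg_of_gate h.2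
    unfold WFg at hw
    simp at hw

omit ht in
theorem block_wf (v : ℕ → Prop) (i : ℕ) (g : ℕ × ℕ × ℕ) (hg : BG S v i g) :
    WF (i * (sz t + 3)) (block t N i g) := by
  have hs := sz_pos t
  have hlt : ∀ a, a < i → (a + 1) * (sz t + 3) - 1 < i * (sz t + 3) := by
    intro a ha
    have h2 : (a + 1) * (sz t + 3) ≤ i * (sz t + 3) := Nat.mul_le_mul_right _ ha
    have h3 : 0 < (a + 1) * (sz t + 3) := by positivity
    omega
  unfold BG at hg
  unfold block
  rcases hg with ⟨h0, -⟩ | ⟨h0, h1, h2, -⟩ | ⟨h0, h1, -⟩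
  · rw [if_pos h0]
    refine wf_append (wf_compile _ _ _) (wf_append (wf_replicate _ _) (wf_single ?_))
    rw [length_compile, List.length_replicate]
    exact Or.inr (Or.inr ⟨Or.inl rfl, by simp only; omega, by simp only; omega⟩)
  · rw [if_neg (by omega), if_pos h0]
    refine wf_append (wf_replicate _ _) (wf_single ?_)
    rw [List.length_replicate]
    have := hlt _ h1
    have := hlt _ h2
    exact Or.inr (Or.inr ⟨Or.inr (Or.inl rfl), by simp only; omega, by simp only; omega⟩)
  · rw [if_neg (by omega), if_neg (by omega), if_pos h0]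
    refine wf_append (wf_replicate _ _) (wf_append (wf_single ?_) (wf_single ?_))
    · rw [List.length_replicate]
      have := hlt _ h1
      exact Or.inr (Or.inl ⟨rfl, by simp only; omega⟩)
    · rw [List.length_replicate, List.length_singleton]
      exact Or.inr (Or.inr ⟨Or.inr (Or.inl rfl), by simp only; omega, by simp only; omega⟩)

/-- all gates of a Boolean circuit -/
def BSat (S v : ℕ → Prop) (P : List (ℕ × ℕ × ℕ)) : Prop :=
  ∀ i g, P[i]? = some g → BG S v i g

omit ht in
theorem bsat_snoc (v : ℕ → Prop) (P : List (ℕ × ℕ × ℕ)) (g : ℕ × ℕ × ℕ) :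
    BSat S v (P ++ [g]) ↔ BSat S v P ∧ BG S v P.length g := by
  constructor
  · intro h
    refine ⟨fun i g' hi => ?_, h P.length g (by simp)⟩
    have hi' : i < P.length := by
      by_contra hc
      rw [List.getElem?_eq_none (by omega)] at hi
      exact absurd hi (by simp)
    exact h i g' (by rw [List.getElem?_append_left hi']; exact hi)
  · rintro ⟨h1, h2⟩ i g' hi
    by_cases hc : i < P.length
    · rw [List.getElem?_append_left hc] at hi
      exact h1 i g' hi
    · rw [List.getElem?_append_right (by omega)] at hi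
      have h3 : i = P.length := by
        by_contra h3
        rw [List.getElem?_eq_none (by simp; omega)] at hi
        exact absurd hi (by simp)
      subst h3
      simp at hi
      subst hi
      exact h2

theorem enc_sound (f : ℕ → Set ℕ) (P : List (ℕ × ℕ × ℕ)) (h : Sat f 0 (enc t N P)) :
    BSat S (fun j => 0 ∈ f ((j + 1) * (sz t + 3) - 1)) P ∧ ∀ j < P.length,
      f ((j + 1) * (sz t + 3) - 1) = {x | x = 0 ∧ 0 ∈ f ((j + 1) * (sz t + 3) - 1)} := by
  induction P using List.reverseRecOn with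
  | nil => exact ⟨fun i g hi => by simp at hi, fun j hj => by simp at hj⟩
  | append_singleton P g ih =>
    rw [enc_snoc, sat_append, length_enc, Nat.zero_add] at h
    obtain ⟨h1, h2⟩ := ih h.1
    obtain ⟨h3, h4⟩ := block_sound t N S ht f (fun j => 0 ∈ f ((j + 1) * (sz t + 3) - 1)) P.length g
      h2 Iff.rfl h.2
    refine ⟨(bsat_snoc S _ P g).2 ⟨h1, h3⟩, ?_⟩
    intro j hj
    rw [List.length_append, List.length_singleton] at hj
    rcases lt_or_eq_of_le (Nat.lt_succ_iff.1 hj) with hj | rfl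
    · exact h2 j hj
    · exact h4

omit ht in
theorem enc_wf (v : ℕ → Prop) (P : List (ℕ × ℕ × ℕ)) (h : BSat S v P) : WF 0 (enc t N P) := by
  induction P using List.reverseRecOn with
  | nil => exact fun k g hk => by simp [enc] at hk
  | append_singleton P g ih =>
    rw [bsat_snoc] at h
    rw [enc_snoc]
    refine wf_append (ih h.1) ?_
    rw [length_enc, Nat.zero_add]
    exact block_wf t N S v P.length g h.2

omit ht in
theorem bsat_unique (v v' : ℕ → Prop) (P : List (ℕ × ℕ × ℕ)) (h : BSat S v P) (h' : BSat S v' P) :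
    ∀ j < P.length, (v j ↔ v' j) := by
  intro j
  induction j using Nat.strong_induction_on with
  | _ j ih =>
    intro hj
    obtain ⟨g, hg⟩ : ∃ g, P[j]? = some g := ⟨_, List.getElem?_eq_getElem hj⟩
    have h1 := h j g hg
    have h2 := h' j g hg
    unfold BG at h1 h2
    rcases h1 with ⟨a0, a1⟩ | ⟨a0, a1, a2, a3⟩ | ⟨a0, a1, a2⟩
    · rcases h2 with ⟨b0, b1⟩ | ⟨b0, -⟩ | ⟨b0, -⟩
      · rw [a1, b1]
      · omega
      · omega
    · rcases h2 with ⟨b0, -⟩ | ⟨b0, b1, b2, b3⟩ | ⟨b0, -⟩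
      · omega
      · rw [a3, b3, ih _ a1 (by omega), ih _ a2 (by omega)]
      · omega
    · rcases h2 with ⟨b0, -⟩ | ⟨b0, -⟩ | ⟨b0, b1, b2⟩
      · omega
      · omega
      · rw [a2, b2, ih _ a1 (by omega)]

/-- the translation is correct -/
theorem enc_correct (P : List (ℕ × ℕ × ℕ)) : MC (enc t N P, 0) ↔ Val S P := by
  have hs := sz_pos t
  have key : ∀ f : ℕ → Set ℕ, (∀ i o a d : ℕ, (enc t N P)[i]? = some (o, a, d) →
        (o = 0 ∧ f i = {a}) ∨
        (o = 1 ∧ a < i ∧ d < i ∧ f i = f a ∪ f d) ∨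
        (o = 2 ∧ a < i ∧ d < i ∧ f i = f a ∩ f d) ∨
        (o = 3 ∧ a < i ∧ f i = (f a)ᶜ) ∨
        (o = 4 ∧ a < i ∧ d < i ∧ f i = {n : ℕ | ∃ x ∈ f a, ∃ y ∈ f d, n = x + y}) ∨
        (o = 5 ∧ a < i ∧ d < i ∧ f i = {n : ℕ | ∃ x ∈ f a, ∃ y ∈ f d, n = x * y})) ↔
      Sat f 0 (enc t N P) := by
    intro f
    constructor
    · intro hh k g hk
      obtain ⟨o, a, d⟩ := g
      rw [Nat.zero_add]
      exact hh k o a d hk
    · intro hh i o a d hi
      have := hh i (o, a, d) hi
      rw [Nat.zero_add] at this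
      exact this
  have keyB : ∀ v : ℕ → Prop, (∀ i o a d : ℕ, P[i]? = some (o, a, d) →
      (o = 0 ∧ (v i ↔ S a)) ∨
      (o = 1 ∧ a < i ∧ d < i ∧ (v i ↔ (v a ∧ v d))) ∨
      (o = 2 ∧ a < i ∧ (v i ↔ ¬ v a))) ↔ BSat S v P := by
    intro v
    constructor
    · intro hh i g hi
      obtain ⟨o, a, d⟩ := g
      exact hh i o a d hi
    · intro hh i o a d hi
      exact hh i (o, a, d) hi
  constructor
  · rintro ⟨h0, f, hf, hb⟩
    have hP : P ≠ [] := by
      rintro rfl
      exact h0 rfl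
    have hP' : 0 < P.length := List.length_pos_iff.2 hP
    obtain ⟨h1, h2⟩ := enc_sound t N S ht f P ((key f).1 hf)
    refine ⟨hP, _, (keyB _).2 h1, ?_⟩
    show 0 ∈ f ((P.length - 1 + 1) * (sz t + 3) - 1)
    rw [Nat.sub_add_cancel hP']
    have hb' : 0 ∈ f ((enc t N P).length - 1) := hb
    rwa [length_enc] at hb'
  · rintro ⟨hP, v, hv, hb⟩
    have hP' : 0 < P.length := List.length_pos_iff.2 hP
    have hv' := (keyB v).1 hv
    obtain ⟨f, -, hf⟩ := exists_sat (enc t N P) 0 (fun _ => ∅) (enc_wf t N S v P hv')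
    obtain ⟨h1, h2⟩ := enc_sound t N S ht f P hf
    have h3 := (bsat_unique S _ _ P hv' h1 (P.length - 1) (by omega)).1 hb
    have h3' : 0 ∈ f ((P.length - 1 + 1) * (sz t + 3) - 1) := h3
    rw [Nat.sub_add_cancel hP'] at h3'
    refine ⟨?_, f, (key f).2 hf, ?_⟩
    · intro h
      have h4 := length_enc t N P
      have h5 : enc t N P = [] := h
      rw [h5, List.length_nil] at h4
      have : 0 < P.length * (sz t + 3) := by positivity
      omega
    · show 0 ∈ f ((enc t N P).length - 1)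
      rw [length_enc]
      exact h3'

end tr

/-! ### computability -/

theorem primrec_gate (c x y z : ℕ) :
    Primrec (fun p : ℕ × ℕ => [((c, p.2 + x - 1, p.2 + y + z - 1) : ℕ × ℕ × ℕ)]) := by
  refine Primrec.list_cons.comp (Primrec.pair (Primrec.const c) (Primrec.pair ?_ ?_))
    (Primrec.const [])
  · exact Primrec.nat_sub.comp (Primrec.nat_add.comp Primrec.snd (Primrec.const x))
      (Primrec.const 1)
  · exact Primrec.nat_sub.comp (Primrec.nat_add.comp (Primrec.nat_add.comp Primrec.snd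
      (Primrec.const y)) (Primrec.const z)) (Primrec.const 1)

theorem primrec_compile2 (t : T) : Primrec (fun p : ℕ × ℕ => compile p.1 t p.2) := by
  have two : ∀ (a b : T) (c : ℕ), Primrec (fun p : ℕ × ℕ => compile p.1 a p.2) →
      Primrec (fun p : ℕ × ℕ => compile p.1 b p.2) →
      Primrec (fun p : ℕ × ℕ => compile p.1 a p.2 ++ compile p.1 b (p.2 + sz a) ++
        [((c, p.2 + sz a - 1, p.2 + sz a + sz b - 1) : ℕ × ℕ × ℕ)]) := by
    intro a b c ha hb
    have hb' : Primrec (fun p : ℕ × ℕ => compile p.1 b (p.2 + sz a)) :=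
      hb.comp (Primrec.pair Primrec.fst (Primrec.nat_add.comp Primrec.snd (Primrec.const _)))
    exact Primrec.list_append.comp (Primrec.list_append.comp ha hb') (primrec_gate c _ _ _)
  induction t with
  | lit k => exact Primrec.const _
  | par =>
    exact Primrec.list_cons.comp (Primrec.pair (Primrec.const 0)
      (Primrec.pair Primrec.fst (Primrec.const 0))) (Primrec.const [])
  | un a b iha ihb => exact two a b 1 iha ihb
  | inter a b iha ihb => exact two a b 2 iha ihb
  | compl a iha =>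
    refine Primrec.list_append.comp iha (Primrec.list_cons.comp (Primrec.pair (Primrec.const 3)
      (Primrec.pair ?_ (Primrec.const 0))) (Primrec.const []))
    exact Primrec.nat_sub.comp (Primrec.nat_add.comp Primrec.snd (Primrec.const _))
      (Primrec.const 1)
  | add a b iha ihb => exact two a b 4 iha ihb
  | mul a b iha ihb => exact two a b 5 iha ihb

theorem primrec_block (t : T) (N : ℕ) :
    Primrec (fun q : ℕ × (ℕ × ℕ × ℕ) => block t N q.1 q.2) := by
  have hpow : Primrec₂ (fun a b : ℕ => a ^ b) := Primrec₂.unpaired'.1 Nat.Primrec.pow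
  have hi : Primrec (fun q : ℕ × (ℕ × ℕ × ℕ) => q.1) := Primrec.fst
  have ho : Primrec (fun q : ℕ × (ℕ × ℕ × ℕ) => q.2.1) := Primrec.fst.comp Primrec.snd
  have ha : Primrec (fun q : ℕ × (ℕ × ℕ × ℕ) => q.2.2.1) :=
    Primrec.fst.comp (Primrec.snd.comp Primrec.snd)
  have hd : Primrec (fun q : ℕ × (ℕ × ℕ × ℕ) => q.2.2.2) :=
    Primrec.snd.comp (Primrec.snd.comp Primrec.snd)
  have hoff : Primrec (fun q : ℕ × (ℕ × ℕ × ℕ) => q.1 * (sz t + 3)) :=
    Primrec.nat_mul.comp hi (Primrec.const _)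
  have hpos : ∀ f : ℕ × (ℕ × ℕ × ℕ) → ℕ, Primrec f →
      Primrec (fun q => (f q + 1) * (sz t + 3) - 1) := by
    intro f hf
    exact Primrec.nat_sub.comp (Primrec.nat_mul.comp (Primrec.succ.comp hf) (Primrec.const _))
      (Primrec.const 1)
  have hsing : ∀ f g h : ℕ × (ℕ × ℕ × ℕ) → ℕ, Primrec f → Primrec g → Primrec h →
      Primrec (fun q => [((f q, g q, h q) : ℕ × ℕ × ℕ)]) := by
    intro f g h hf hg hh
    exact Primrec.list_cons.comp (Primrec.pair hf (Primrec.pair hg hh)) (Primrec.const [])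
  have hoff1 : Primrec (fun q : ℕ × (ℕ × ℕ × ℕ) => q.1 * (sz t + 3) + sz t) :=
    Primrec.nat_add.comp hoff (Primrec.const _)
  unfold block
  refine Primrec.ite (Primrec.eq.comp ho (Primrec.const 0)) ?_ (Primrec.ite
    (Primrec.eq.comp ho (Primrec.const 1)) ?_ (Primrec.ite
    (Primrec.eq.comp ho (Primrec.const 2)) ?_ (Primrec.const _)))
  · refine Primrec.list_append.comp ?_ (Primrec.list_append.comp (Primrec.const _)
      (hsing _ _ _ (Primrec.const 1) ?_ ?_))
    · exact (primrec_compile2 t).comp (Primrec.pair (hpow.comp (Primrec.const 2)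
        (Primrec.nat_mul.comp (Primrec.const N) ha)) hoff)
    · exact Primrec.nat_sub.comp hoff1 (Primrec.const 1)
    · exact Primrec.nat_sub.comp hoff1 (Primrec.const 1)
  · exact Primrec.list_append.comp (Primrec.const _)
      (hsing _ _ _ (Primrec.const 2) (hpos _ ha) (hpos _ hd))
  · exact Primrec.list_append.comp (Primrec.const _) (Primrec.list_append.comp
      (hsing _ _ _ (Primrec.const 3) (hpos _ ha) (Primrec.const 0))
      (hsing _ _ _ (Primrec.const 2) hoff1 (Primrec.succ.comp hoff1)))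

theorem primrec_enc (t : T) (N : ℕ) : Primrec (enc t N) := by
  unfold enc
  refine Primrec.list_flatMap (Primrec.list_range.comp Primrec.list_length) ?_
  exact (primrec_block t N).comp (Primrec.pair Primrec.snd
    ((Primrec.list_getD (0, 0, 0)).comp Primrec.fst Primrec.snd))

/-! ### the results -/

theorem exists_tree (S : ℕ → Prop) (hS : REPred S) :
    ∃ (t : T) (N : ℕ), ∀ n, t.ev (2 ^ (N * n)) = {x | x = 0 ∧ S n} := by
  obtain ⟨k, L, hk, hL, hx⟩ := exists_sys S hS
  obtain ⟨t, N, ht⟩ := enc_tree k L hk hL df_pb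
    (fun B hB hP => df_conv B hB hP (df_quad B hB hP))
  refine ⟨.mul (.lit 0) t, N, fun n => ?_⟩
  have h1 := (hx n).trans (ht n)
  ext x
  constructor
  · rintro ⟨y, hy, z, hz, rfl⟩
    have hy' : y = 0 := hy
    subst hy'
    exact ⟨Nat.zero_mul z, h1.2 ⟨z, hz⟩⟩
  · rintro ⟨rfl, hn⟩
    obtain ⟨z, hz⟩ := h1.1 hn
    exact ⟨0, rfl, z, hz, (Nat.zero_mul z).symm⟩

theorem hard (S : ℕ → Prop) (hS : REPred S) (A : ℕ → Prop) (hA : TTReducible A S) :
    A ≤₀ (fun C : List (ℕ × ℕ × ℕ) => MC (C, 0)) := by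
  obtain ⟨P, hP, hAP⟩ := hA
  obtain ⟨t, N, ht⟩ := exists_tree S hS
  refine ⟨fun n => enc t N (P n), (primrec_enc t N).to_comp.comp hP, fun n => ?_⟩
  exact (hAP n).trans (enc_correct t N S ht (P n)).symm

theorem re_of_reducible {α β : Type} [Primcodable α] [Primcodable β] {p : α → Prop}
    {q : β → Prop} (h : p ≤₀ q) (hq : REPred q) : REPred p := by
  obtain ⟨f, hf, hpq⟩ := h
  have h1 := Partrec.comp hq hf
  refine h1.of_eq fun a => ?_
  have h2 : p a = q (f a) := propext (hpq a)
  rw [h2]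

/-- The halting problem on the natural numbers. -/
theorem halt_not : ∃ S : ℕ → Prop, REPred S ∧ ¬ REPred (fun n => ¬ S n) := by
  refine ⟨fun n => (Nat.Partrec.Code.eval (Denumerable.ofNat Nat.Partrec.Code n) 0).Dom, ?_, ?_⟩
  · exact re_of_reducible (q := fun c => (Nat.Partrec.Code.eval c 0).Dom)
      ⟨fun n => Denumerable.ofNat Nat.Partrec.Code n, Computable.ofNat _, fun n => Iff.rfl⟩
      (ComputablePred.halting_problem_re 0)
  · intro h
    refine ComputablePred.halting_problem_not_re 0 (re_of_reducible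
      (q := fun n => ¬ (Nat.Partrec.Code.eval (Denumerable.ofNat Nat.Partrec.Code n) 0).Dom)
      ⟨Encodable.encode, Computable.encode, fun c => ?_⟩ h)
    show ¬ (Nat.Partrec.Code.eval c 0).Dom ↔
      ¬ (Nat.Partrec.Code.eval (Denumerable.ofNat _ (Encodable.encode c)) 0).Dom
    rw [Denumerable.ofNat_encode]

theorem tt_self (S : ℕ → Prop) : TTReducible S S := by
  refine ⟨fun n => [(0, n, 0)], ?_, fun n => ?_⟩
  · exact (Primrec.list_cons.comp (Primrec.pair (Primrec.const 0) (Primrec.pair Primrec.id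
      (Primrec.const 0))) (Primrec.const [])).to_comp
  · constructor
    · intro h
      refine ⟨by simp, fun _ => S n, ?_, h⟩
      intro i o a d hi
      cases i with
      | zero =>
        have h1 := Option.some.inj hi
        simp only [Prod.mk.injEq] at h1
        obtain ⟨rfl, rfl, rfl⟩ := h1
        exact Or.inl ⟨rfl, Iff.rfl⟩
      | succ i => simp at hi
    · rintro ⟨-, v, hv, hb⟩
      rcases hv 0 0 n 0 rfl with ⟨-, h⟩ | ⟨h, -⟩ | ⟨h, -⟩
      · exact h.1 hb
      · omega
      · omega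

theorem tt_not (S : ℕ → Prop) : TTReducible (fun n => ¬ S n) S := by
  refine ⟨fun n => [(0, n, 0), (2, 0, 0)], ?_, fun n => ?_⟩
  · exact (Primrec.list_cons.comp (Primrec.pair (Primrec.const 0) (Primrec.pair Primrec.id
      (Primrec.const 0))) (Primrec.const [(2, 0, 0)])).to_comp
  · constructor
    · intro h
      refine ⟨by simp, fun j => if j = 0 then S n else ¬ S n, ?_, ?_⟩
      · intro i o a d hi
        cases i with
        | zero =>
          have h1 := Option.some.inj hi
          simp only [Prod.mk.injEq] at h1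
          obtain ⟨rfl, rfl, rfl⟩ := h1
          exact Or.inl ⟨rfl, by simp⟩
        | succ i =>
          cases i with
          | zero =>
            have h1 := Option.some.inj hi
            simp only [Prod.mk.injEq] at h1
            obtain ⟨rfl, rfl, rfl⟩ := h1
            exact Or.inr (Or.inr ⟨rfl, by omega, by simp⟩)
          | succ i => simp at hi
      · show if (2 - 1 = 0) then S n else ¬ S n
        simpa using h
    · rintro ⟨-, v, hv, hb⟩
      have hb' : v 1 := hb
      rcases hv 1 2 0 0 rfl with ⟨h, -⟩ | ⟨h, -⟩ | ⟨-, -, h⟩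
      · omega
      · omega
      · rcases hv 0 0 n 0 rfl with ⟨-, h'⟩ | ⟨h', -⟩ | ⟨h', -⟩
        · intro hS
          exact (h.1 hb') (h'.2 hS)
        · omega
        · omega

theorem result :
    -- (1) hardness, already for the question whether `0` is in the set computed by the circuit
    (∀ S : ℕ → Prop, REPred S → ∀ A : ℕ → Prop, TTReducible A S →
      A ≤₀ (fun C : List (ℕ × ℕ × ℕ) => MC (C, 0))) ∧
    -- (2) neither the problem nor its complement is recursively enumerable
    ¬ REPred MC ∧ ¬ REPred (fun p => ¬ MC p) := by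
  have hemb : (fun C : List (ℕ × ℕ × ℕ) => MC (C, 0)) ≤₀ MC :=
    ⟨fun C => (C, 0), (Primrec.pair Primrec.id (Primrec.const 0)).to_comp, fun C => Iff.rfl⟩
  obtain ⟨S, hS, hS'⟩ := halt_not
  refine ⟨hard, fun h => ?_, fun h => ?_⟩
  · exact hS' (re_of_reducible ((hard S hS _ (tt_not S)).trans hemb) h)
  · obtain ⟨f, hf, hfS⟩ := (hard S hS _ (tt_self S)).trans hemb
    exact hS' (re_of_reducible (q := fun p => ¬ MC p) ⟨f, hf, fun n => not_congr (hfS n)⟩ h)

end Pool.Agent.Results.MP_d0b6c3_lc.TruthTableHard
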